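import Mathlib

namespace Pool.Agent.Results.MP_357d86_pr.Blocks
open MeasureTheory ProbabilityTheory Set Filter
open scoped ENNReal

/-- generalized inverse `F⁻¹(x) = inf {y | F y ≥ x}`, in the extended reals -/
noncomputable def qinv (F : ℝ → ℝ) (x : ℝ) : EReal := sInf ((↑) '' {y : ℝ | x ≤ F y})

/-- the bivariate Lorenz curve of the law `P` -/
noncomputable def Lor (P : Measure (ℝ × ℝ)) (x₁ x₂ : ℝ) : ℝ :=
  (∫ u in {u : ℝ × ℝ | (u.1 : EReal) ≤ qinv (cdf P.fst) x₁ ∧ (u.2 : EReal) ≤ qinv (cdf P.snd) x₂},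
    u.1 * u.2 ∂P) / ∫ u, u.1 * u.2 ∂P

/-- `P (n+1)` is the law on `[0,1]²` whose distribution function is the Lorenz curve of `P n` -/
def IsIter (P : ℕ → Measure (ℝ × ℝ)) : Prop :=
  ∀ n, IsProbabilityMeasure (P (n + 1)) ∧ P (n + 1) (Icc 0 1 ×ˢ Icc 0 1)ᶜ = 0 ∧
    ∀ x₁ ∈ Icc (0 : ℝ) 1, ∀ x₂ ∈ Icc (0 : ℝ) 1,
      (P (n + 1)).real (Iic x₁ ×ˢ Iic x₂) = Lor (P n) x₁ x₂

lemma level (ν : Measure ℝ) [IsProbabilityMeasure ν] [NullSingletonClass ν] (x : ℝ) :
    ν {u | cdf ν u = x} = 0 := by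
  have hm : MeasurableSet {u | cdf ν u = x} :=
    (monotone_cdf ν).measurable (measurableSet_singleton x)
  rw [hm.measure_eq_iSup_isCompact]
  simp only [ENNReal.iSup_eq_zero]
  intro K hK hc
  rcases K.eq_empty_or_nonempty with rfl | hne
  · simp
  obtain ⟨a, ha⟩ := hc.exists_isLeast hne
  obtain ⟨b, hb⟩ := hc.exists_isGreatest hne
  refine measure_mono_null (t := Icc a b) (fun u hu => ⟨ha.2 hu, hb.2 hu⟩) ?_
  have := (cdf ν).measure_Ioc a b
  rw [measure_cdf, show cdf ν b = x from hK hb.1, show cdf ν a = x from hK ha.1] at this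
  rw [← measure_congr Ioc_ae_eq_Icc, this]; simp

lemma quant (ν : Measure ℝ) [IsProbabilityMeasure ν] [NullSingletonClass ν] {x u : ℝ}
    (h : cdf ν u ≠ x) : cdf ν u ≤ x ↔ (u : EReal) ≤ qinv (cdf ν) x := by
  simp only [qinv, le_sInf_iff, mem_image, mem_ofPred_eq, forall_exists_index, and_imp,
    forall_apply_eq_imp_iff₂, EReal.coe_le_coe_iff]
  constructor
  · intro h1 y hy
    by_contra hlt
    exact h (le_antisymm h1 (hy.trans (monotone_cdf ν (not_le.1 hlt).le)))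
  · intro h1
    have h2 := (cdf ν).measure_singleton u
    rw [measure_cdf, measure_singleton, eq_comm, ENNReal.ofReal_eq_zero,
      (monotone_cdf ν).leftLim_eq_sSup] at h2
    have : sSup (cdf ν '' Iio u) ≤ x := by
      refine csSup_le ⟨_, u - 1, by simp, rfl⟩ ?_
      rintro _ ⟨y, hy, rfl⟩
      by_contra hlt
      exact absurd (h1 y (not_le.1 hlt).le) (not_le.2 hy)
    linarith

structure Inv (P : Measure (ℝ × ℝ)) : Prop where
  prob : IsProbabilityMeasure P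
  supp : P (Icc 0 1 ×ˢ Icc 0 1)ᶜ = 0
  atom : NullSingletonClass P.fst
  sym : MeasurePreserving Prod.swap P P
  lo : P (Iic (1 / 2) ×ˢ Iic (1 / 2)) = 0
  hi : P (Ioi (1 / 2) ×ˢ Ioi (1 / 2)) = 0

lemma half {P : Measure (ℝ × ℝ)} [IsProbabilityMeasure P] (sym : MeasurePreserving Prod.swap P P)
    (lo : P (Iic (1 / 2) ×ˢ Iic (1 / 2)) = 0) (hi : P (Ioi (1 / 2) ×ˢ Ioi (1 / 2)) = 0) :
    P.real (Iic (1 / 2) ×ˢ univ) = 1 / 2 := by
  have hA : MeasurableSet (Iic (1 / 2 : ℝ) ×ˢ (univ : Set ℝ)) := measurableSet_Iic.prod .univ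
  have h1 := measureReal_union_add_inter (μ := P) (s := Iic (1 / 2 : ℝ) ×ˢ (univ : Set ℝ))
    (sym.measurable hA)
  have h2 : P.real (Prod.swap ⁻¹' (Iic (1 / 2 : ℝ) ×ˢ (univ : Set ℝ))) =
      P.real (Iic (1 / 2) ×ˢ univ) := by
    rw [Measure.real, sym.measure_preimage hA.nullMeasurableSet]; rfl
  have e1 : Iic (1 / 2 : ℝ) ×ˢ (univ : Set ℝ) ∩ Prod.swap ⁻¹' (Iic (1 / 2 : ℝ) ×ˢ (univ : Set ℝ)) =
      Iic (1 / 2) ×ˢ Iic (1 / 2) := by ext u; simp [Prod.le_def]
  have e2 : Iic (1 / 2 : ℝ) ×ˢ (univ : Set ℝ) ∪ Prod.swap ⁻¹' (Iic (1 / 2 : ℝ) ×ˢ (univ : Set ℝ)) =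
      (Ioi (1 / 2) ×ˢ Ioi (1 / 2))ᶜ := by ext u; simp [-not_and, not_and_or]
  rw [e1, e2, h2, probReal_compl_eq_one_sub (measurableSet_Ioi.prod measurableSet_Ioi),
    Measure.real, Measure.real, lo, hi] at h1
  simp only [ENNReal.toReal_zero] at h1
  linarith

noncomputable def Q (P : Measure (ℝ × ℝ)) : Measure (ℝ × ℝ) :=
  P.withDensity fun u => ENNReal.ofReal (u.1 * u.2 / ∫ u, u.1 * u.2 ∂P)

noncomputable def step (P : Measure (ℝ × ℝ)) : Measure (ℝ × ℝ) :=
  (Q P).map (Prod.map (cdf P.fst) (cdf P.fst))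

namespace Inv
variable {P : Measure (ℝ × ℝ)} (h : Inv P)
include h

lemma snd_eq : P.snd = P.fst := by
  rw [← Measure.snd_map_swap, h.sym.map_eq]

lemma ae_ne (x : ℝ) : ∀ᵐ u ∂P, cdf P.fst u.1 ≠ x ∧ cdf P.fst u.2 ≠ x := by
  have := h.prob; have := h.atom
  have h1 : ∀ᵐ u ∂P.fst, cdf P.fst u ≠ x := by simpa [ae_iff] using level P.fst x
  have h2 : ∀ᵐ u ∂P.snd, cdf P.fst u ≠ x := by rwa [h.snd_eq]
  exact (ae_of_ae_map measurable_fst.aemeasurable h1).and
    (ae_of_ae_map measurable_snd.aemeasurable h2)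

lemma ae_pos : ∀ᵐ u ∂P, u.1 ∈ Ioc (0 : ℝ) 1 ∧ u.2 ∈ Ioc (0 : ℝ) 1 := by
  have := h.atom
  have h1 : ∀ᵐ u ∂P.fst, u ≠ 0 := by simp [ae_iff]
  filter_upwards [(show ∀ᵐ u ∂P, u ∈ Icc (0 : ℝ) 1 ×ˢ Icc (0 : ℝ) 1 from h.supp),
    ae_of_ae_map measurable_fst.aemeasurable h1,
    ae_of_ae_map (f := Prod.snd) measurable_snd.aemeasurable (h.snd_eq ▸ h1 :)] with u hu h2 h3
  exact ⟨⟨hu.1.1.lt_of_ne' h2, hu.1.2⟩, hu.2.1.lt_of_ne' h3, hu.2.2⟩

lemma pos {f : ℝ × ℝ → ℝ} (hf : Measurable f)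
    (hb : ∀ u : ℝ × ℝ, u.1 ∈ Ioc (0 : ℝ) 1 ∧ u.2 ∈ Ioc (0 : ℝ) 1 → f u ∈ Ioc (0 : ℝ) 1) :
    Integrable f P ∧ 0 < ∫ u, f u ∂P := by
  have := h.prob
  have h1 := h.ae_pos.mono hb
  have hi : Integrable f P := Integrable.of_mem_Icc 0 1 hf.aemeasurable
    (h1.mono fun _ hu => Ioc_subset_Icc_self hu)
  refine ⟨hi, (integral_pos_iff_support_of_nonneg_ae (h1.mono fun _ hu => hu.1.le) hi).2 ?_⟩
  rw [(prob_compl_eq_zero_iff (measurableSet_support hf)).1
    (measure_mono_null (t := {u | ¬ f u ∈ Ioc 0 1}) (fun u hu hu' => hu hu'.1.ne') (ae_iff.1 h1))]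
  exact one_pos

lemma mpos : Integrable (fun u : ℝ × ℝ => u.1 * u.2) P ∧ 0 < ∫ u, u.1 * u.2 ∂P :=
  h.pos (by fun_prop) fun _ hu => ⟨mul_pos hu.1.1 hu.2.1, mul_le_one₀ hu.1.2 hu.2.1.le hu.2.2⟩

lemma Q_real {s : Set (ℝ × ℝ)} (hs : MeasurableSet s) :
    Q P s = ENNReal.ofReal ((∫ u in s, u.1 * u.2 ∂P) / ∫ u, u.1 * u.2 ∂P) := by
  rw [Q, withDensity_apply _ hs, ← integral_div, ofReal_integral_eq_lintegral_ofReal
    (h.mpos.1.div_const _).restrict (ae_restrict_of_ae (h.ae_pos.mono fun u hu =>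
      div_nonneg (mul_pos hu.1.1 hu.2.1).le h.mpos.2.le))]

lemma Q_prob : IsProbabilityMeasure (Q P) :=
  ⟨by rw [h.Q_real .univ, Measure.restrict_univ, div_self h.mpos.2.ne']; simp⟩

lemma Q_sym : MeasurePreserving Prod.swap (Q P) (Q P) := by
  refine ⟨measurable_swap, Measure.ext fun s hs => ?_⟩
  rw [Measure.map_apply measurable_swap hs, Q, withDensity_apply _ hs,
    withDensity_apply _ (measurable_swap hs), ← h.sym.setLIntegral_comp_preimage hs (by fun_prop)]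
  simp [mul_comm]

omit h in
lemma mF : Measurable (Prod.map (cdf P.fst) (cdf P.fst)) :=
  (monotone_cdf _).measurable.prodMap (monotone_cdf _).measurable

omit h in
lemma step_apply {s t : Set (ℝ × ℝ)} (hs : MeasurableSet s)
    (ht : ∀ᵐ u ∂P, Prod.map (cdf P.fst) (cdf P.fst) u ∈ s ↔ u ∈ t) : step P s = Q P t := by
  rw [step, Measure.map_apply mF hs]
  exact measure_congr ((withDensity_absolutelyContinuous _ _).ae_le (ht.mono fun _ hu => propext hu))

lemma ae_half : ∀ᵐ u ∂P, (cdf P.fst u.1 ≤ 1 / 2 ↔ u.1 ≤ 1 / 2) ∧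
    (cdf P.fst u.2 ≤ 1 / 2 ↔ u.2 ≤ 1 / 2) := by
  have := h.prob
  have h0 : cdf P.fst (1 / 2) = 1 / 2 := by
    rw [cdf_eq_real, Measure.real, Measure.fst_apply measurableSet_Iic, ← prod_univ]
    exact half h.sym h.lo h.hi
  have key : ∀ u, cdf P.fst u ≠ 1 / 2 → (cdf P.fst u ≤ 1 / 2 ↔ u ≤ 1 / 2) := fun u hu =>
    ⟨fun h1 => by
      by_contra h2
      exact hu (le_antisymm h1 (h0 ▸ monotone_cdf _ (not_le.1 h2).le)),
     fun h1 => h0 ▸ monotone_cdf _ h1⟩
  exact (h.ae_ne _).mono fun u hu => ⟨key _ hu.1, key _ hu.2⟩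

lemma step_inv : Inv (step P) where
  prob := by
    have := h.Q_prob
    exact Measure.isProbabilityMeasure_map mF.aemeasurable
  supp := by
    rw [step_apply (t := ∅) (measurableSet_Icc.prod measurableSet_Icc).compl, measure_empty]
    exact .of_forall fun u => by simp [cdf_nonneg, cdf_le_one, Prod.le_def]
  atom := ⟨fun x => by
    rw [Measure.fst_apply (measurableSet_singleton x), step_apply (t := ∅)
      (measurable_fst (measurableSet_singleton x)), measure_empty]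
    exact (h.ae_ne x).mono fun u hu => by simpa using hu.1⟩
  sym := ⟨measurable_swap, by
    rw [step, Measure.map_map measurable_swap mF]
    conv_rhs => rw [← h.Q_sym.map_eq, Measure.map_map mF measurable_swap]
    rfl⟩
  lo := by
    rw [step_apply (t := Iic (1 / 2) ×ˢ Iic (1 / 2)) (measurableSet_Iic.prod measurableSet_Iic)]
    · exact withDensity_absolutelyContinuous _ _ h.lo
    · exact h.ae_half.mono fun u hu => and_congr hu.1 hu.2
  hi := by
    rw [step_apply (t := Ioi (1 / 2) ×ˢ Ioi (1 / 2)) (measurableSet_Ioi.prod measurableSet_Ioi)]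
    · exact withDensity_absolutelyContinuous _ _ h.hi
    · exact h.ae_half.mono fun u hu =>
        and_congr (lt_iff_lt_of_le_iff_le hu.1) (lt_iff_lt_of_le_iff_le hu.2)

lemma step_cdf (x₁ x₂ : ℝ) : (step P).real (Iic x₁ ×ˢ Iic x₂) = Lor P x₁ x₂ := by
  have := h.prob; have := h.atom
  have hm : MeasurableSet {u : ℝ × ℝ | (u.1 : EReal) ≤ qinv (cdf P.fst) x₁ ∧
      (u.2 : EReal) ≤ qinv (cdf P.snd) x₂} :=
    MeasurableSet.inter (s₁ := {u : ℝ × ℝ | (u.1 : EReal) ≤ qinv (cdf P.fst) x₁})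
      (s₂ := {u : ℝ × ℝ | (u.2 : EReal) ≤ qinv (cdf P.snd) x₂})
      (measurableSet_le (by fun_prop) measurable_const)
      (measurableSet_le (by fun_prop) measurable_const)
  rw [Measure.real, step_apply (measurableSet_Iic.prod measurableSet_Iic), h.Q_real hm,
    ENNReal.toReal_ofReal, Lor]
  · exact div_nonneg (setIntegral_nonneg_of_ae (h.ae_pos.mono fun u hu =>
      (mul_pos hu.1.1 hu.2.1).le)) h.mpos.2.le
  · filter_upwards [h.ae_ne x₁, h.ae_ne x₂] with u h1 h2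
    rw [h.snd_eq]
    exact and_congr (quant _ h1.1) (quant _ h2.2)

lemma vals : Lor P (1 / 2) (1 / 2) = 0 ∧ Lor P (1 / 2) 1 = 1 / 2 ∧ Lor P 1 (1 / 2) = 1 / 2 := by
  have h' := h.step_inv
  have := h'.prob
  have e : (step P).real (Iic (1 / 2) ×ˢ Iic 1) = 1 / 2 := by
    refine Eq.trans ?_ (half h'.sym h'.lo h'.hi)
    exact measureReal_congr (h'.ae_pos.mono fun u hu =>
      propext ⟨fun h => ⟨h.1, trivial⟩, fun h => ⟨h.1, hu.2.2⟩⟩)
  refine ⟨?_, ?_, ?_⟩ <;> rw [← h.step_cdf]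
  · rw [Measure.real, h'.lo]; rfl
  · exact e
  · refine Eq.trans ?_ e
    rw [Measure.real, ← h'.sym.measure_preimage
      (measurableSet_Iic.prod measurableSet_Iic).nullMeasurableSet, preimage_swap_prod]
    rfl
end Inv

noncomputable def al : Measure ℝ := volume.restrict (Ioc 0 (1 / 2))
noncomputable def be : Measure ℝ := volume.restrict (Ioc (1 / 2) 1)
instance : IsFiniteMeasure al := by unfold al; infer_instance
instance : IsFiniteMeasure be := by unfold be; infer_instance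
noncomputable def P0 : Measure (ℝ × ℝ) := (2 : ℝ≥0∞) • (al.prod be + be.prod al)

lemma ac : P0 ≪ volume := by
  refine (Measure.smul_absolutelyContinuous).trans (Measure.AbsolutelyContinuous.add_left ?_ ?_) <;>
  · simp only [al, be, Measure.prod_restrict]
    exact Measure.absolutelyContinuous_of_le Measure.restrict_le_self

lemma inv0 : Inv P0 where
  prob := ⟨by
    simp only [P0, Measure.smul_apply, Measure.add_apply, ← univ_prod_univ, Measure.prod_prod, al,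
      be, Measure.restrict_apply_univ, Real.volume_Ioc, smul_eq_mul]
    rw [← ENNReal.ofReal_mul (by norm_num), ← ENNReal.ofReal_mul (by norm_num),
      ← ENNReal.ofReal_add (by norm_num) (by norm_num), ← ENNReal.ofReal_ofNat,
      ← ENNReal.ofReal_mul (by norm_num)]
    norm_num⟩
  supp := by
    have hm := (measurableSet_Icc.prod measurableSet_Icc : MeasurableSet
      (Icc (0 : ℝ) 1 ×ˢ Icc (0 : ℝ) 1)).compl
    simp only [P0, Measure.smul_apply, Measure.add_apply, al, be, Measure.prod_restrict,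
      Measure.restrict_apply hm]
    rw [eq_empty_of_forall_notMem (s := _ ∩ _), eq_empty_of_forall_notMem (s := _ ∩ _)]
    · simp
    all_goals
      rintro u ⟨h1, ⟨h2, h3⟩, h4, h5⟩
      exact h1 ⟨⟨by linarith, by linarith⟩, by linarith, by linarith⟩
  atom := ⟨fun x => by
    rw [Measure.fst_apply (measurableSet_singleton x), ← prod_univ]
    exact ac (by rw [Measure.volume_eq_prod, Measure.prod_prod]; simp)⟩
  sym := ⟨measurable_swap, by
    rw [P0, Measure.map_smul, Measure.map_add _ _ measurable_swap, Measure.prod_swap,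
      Measure.prod_swap, add_comm]⟩
  lo := by
    have : be (Iic (1 / 2)) = 0 := by
      rw [be, Measure.restrict_apply measurableSet_Iic, eq_empty_of_forall_notMem (s := _ ∩ _)]
      · simp
      · rintro u ⟨h1, h2, -⟩; exact absurd h1 (not_le.2 h2)
    simp only [P0, Measure.smul_apply, Measure.add_apply, Measure.prod_prod, this]
    simp
  hi := by
    have : al (Ioi (1 / 2)) = 0 := by
      rw [al, Measure.restrict_apply measurableSet_Ioi, eq_empty_of_forall_notMem (s := _ ∩ _)]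
      · simp
      · rintro u ⟨h1, -, h2⟩; exact absurd h2 (not_le.2 h1)
    simp only [P0, Measure.smul_apply, Measure.add_apply, Measure.prod_prod, this]
    simp

lemma far {f : ℕ → ℝ → ℝ} {g : ℝ → ℝ} {c : ℝ} (hf : ∀ n, f n (1 / 2) = c) (hg : g (1 / 2) ≠ c) :
    ¬ TendstoUniformlyOn f g atTop (Icc 0 1) := fun H => by
  have := H.tendsto_at (x := 1 / 2) (by norm_num)
  simp only [hf] at this
  exact hg (tendsto_nhds_unique this tendsto_const_nhds)

theorem result : ∃ P : ℕ → Measure (ℝ × ℝ), IsProbabilityMeasure (P 0) ∧ P 0 ≪ volume ∧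
    P 0 (Icc 0 1 ×ˢ Icc 0 1)ᶜ = 0 ∧ 0 < ∫ u, u.1 ∂P 0 ∧ 0 < ∫ u, u.2 ∂P 0 ∧
    0 < ∫ u, u.1 * u.2 ∂P 0 ∧ IsIter P ∧
    ¬ TendstoUniformlyOn (fun n x => Lor (P n) x 1) (fun x => x ^ Real.goldenRatio) atTop
      (Icc 0 1) ∧
    ¬ TendstoUniformlyOn (fun n x => Lor (P n) 1 x) (fun x => x ^ Real.goldenRatio) atTop
      (Icc 0 1) ∧
    ¬ TendstoUniformlyOn (fun n (x : ℝ × ℝ) => Lor (P n) x.1 x.2 - Lor (P n) x.1 1 * Lor (P n) 1 x.2)
      0 atTop (Icc 0 1 ×ˢ Icc 0 1) := by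
  have hI : ∀ n, Inv (step^[n] P0) := fun n => by
    induction n with
    | zero => exact inv0
    | succ n ih => rw [Function.iterate_succ_apply']; exact ih.step_inv
  have hg : (1 / 2 : ℝ) ^ Real.goldenRatio ≠ 1 / 2 := by
    have := Real.rpow_lt_rpow_of_exponent_gt (x := 1 / 2) (by norm_num) (by norm_num)
      Real.one_lt_goldenRatio
    rw [Real.rpow_one] at this
    exact this.ne
  refine ⟨fun n => step^[n] P0, inv0.prob, ac, inv0.supp,
    (inv0.pos measurable_fst fun _ h => h.1).2, (inv0.pos measurable_snd fun _ h => h.2).2,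
    inv0.mpos.2, fun n => ⟨(hI _).prob, (hI _).supp, fun x _ y _ => ?_⟩,
    far (fun n => (hI n).vals.2.1) hg, far (fun n => (hI n).vals.2.2) hg, fun H => ?_⟩
  · simp only [Function.iterate_succ_apply']
    exact (hI n).step_cdf x y
  · have := H.tendsto_at (x := (1 / 2, 1 / 2)) ⟨by norm_num, by norm_num⟩
    simp only [(hI _).vals] at this
    have := tendsto_nhds_unique this tendsto_const_nhds
    norm_num at this

end Pool.Agent.Results.MP_357d86_pr.Blocks
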